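import Pool.Agent.Helper50.CT.Goals

/-! # CT: the contraction inequality for numbers (packet EX) -/

set_option autoImplicit false

namespace Pool.Agent.Helper85.CT

open Real

theorem sinh_11 : Real.sinh (11 / 10) ≤ 1353 / 1000 := by
  have h1 : Real.exp (11 / 10) ≤ 302 / 100 + 1 / 1000 := by
    have h2 : Real.exp (11 / 10) = Real.exp 1 * Real.exp (1 / 10) := by
      rw [← Real.exp_add]
      norm_num
    have h3 := Real.add_one_le_exp (-(1 / 10) : ℝ)
    have h4 : Real.exp (1 / 10) * Real.exp (-(1 / 10)) = 1 := by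
      rw [← Real.exp_add]
      norm_num
    have h5 := Real.exp_one_lt_d9
    have h6 : 0 < Real.exp (1 / 10 : ℝ) := Real.exp_pos _
    have h7 : Real.exp (1 / 10 : ℝ) ≤ 10 / 9 := by nlinarith
    rw [h2]
    have h8 := Real.exp_pos (1 : ℝ)
    nlinarith
  have h2 : Real.exp (11 / 10) * Real.exp (-(11 / 10)) = 1 := by
    rw [← Real.exp_add]
    norm_num
  have h3 : 1 / 4 ≤ Real.exp (-(11 / 10) : ℝ) := by
    have := Real.exp_pos (-(11 / 10) : ℝ)
    nlinarith
  have h4 : 331 / 1000 ≤ Real.exp (-(11 / 10) : ℝ) := by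
    have := Real.exp_pos (-(11 / 10) : ℝ)
    nlinarith
  rw [Real.sinh_eq]
  linarith

theorem convex_sinh : ConvexOn ℝ (Set.Ici 0) Real.sinh := by
  apply convexOn_of_deriv2_nonneg (convex_Ici 0) Real.continuous_sinh.continuousOn
    Real.differentiable_sinh.differentiableOn
  · rw [Real.deriv_sinh]
    exact Real.differentiable_cosh.differentiableOn
  · intro x hx
    rw [interior_Ici] at hx
    have : deriv^[2] Real.sinh = Real.sinh := by
      rw [Function.iterate_succ, Function.iterate_one, Function.comp_apply, Real.deriv_sinh,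
        Real.deriv_cosh]
    rw [this]
    exact Real.sinh_nonneg_iff.2 (le_of_lt hx)

theorem sinh_up (t : ℝ) (h0 : 0 ≤ t) (h1 : t ≤ 11 / 10) : Real.sinh t ≤ 123 / 100 * t := by
  obtain ⟨-, hcv⟩ := convex_sinh
  have hm : t / (11 / 10) ≤ 1 := (div_le_one (by norm_num : (0:ℝ) < 11 / 10)).2 h1
  have h := hcv (show (0 : ℝ) ∈ Set.Ici 0 by rw [Set.mem_Ici])
    (show (11 / 10 : ℝ) ∈ Set.Ici 0 by rw [Set.mem_Ici]; norm_num)
    (show 0 ≤ 1 - t / (11 / 10) by linarith) (show 0 ≤ t / (11 / 10) by positivity) (by ring)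
  simp only [smul_eq_mul, mul_zero, zero_add, Real.sinh_zero] at h
  have h2 : t / (11 / 10) * (11 / 10) = t := by ring
  rw [h2] at h
  have h3 := sinh_11
  have h4 : 0 ≤ t / (11 / 10) := by positivity
  have h5 : t / (11 / 10) * Real.sinh (11 / 10) ≤ t / (11 / 10) * (1353 / 1000) :=
    mul_le_mul_of_nonneg_left h3 h4
  have h6 : t / (11 / 10) * (1353 / 1000) = 123 / 100 * t := by ring
  linarith

theorem sinh_low (l t : ℝ) (hl : 0 ≤ l) (h0 : 0 ≤ t) (h1 : t ≤ 11 / 10) :
    l * Real.sinh t ≤ 123 / 100 * Real.sinh (l * t) := by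
  have h2 := sinh_up t h0 h1
  have h3 : l * t ≤ Real.sinh (l * t) := Real.self_le_sinh_iff.2 (by positivity)
  nlinarith

theorem ident (A B x y c : ℝ) :
    Real.sinh B * Real.sinh (A - x) * Real.cosh y
      + Real.sinh x * (Real.sinh (B - y) * Real.cosh A + Real.sinh y * c)
    = Real.sinh A * Real.sinh B * Real.cosh (x - y)
      + Real.sinh x * Real.sinh y * (c - Real.cosh (A - B)) := by
  rw [Real.sinh_sub, Real.sinh_sub, Real.cosh_sub, Real.cosh_sub]
  ring

theorem cosh_half (u : ℝ) : Real.cosh u = 1 + 2 * Real.sinh (u / 2) ^ 2 := by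
  have h := Real.cosh_two_mul (u / 2)
  have h2 := Real.cosh_sq (u / 2)
  rw [show 2 * (u / 2) = u by ring] at h
  rw [h, h2]
  ring

theorem core (A B E E' l : ℝ) (hA : 0 < A) (hB : 0 < B) (hA1 : A ≤ 11 / 10) (hB1 : B ≤ 11 / 10)
    (hl : 0 < l) (hl1 : l ≤ 1) (h1 : |A - B| ≤ E) (h3 : 0 ≤ E')
    (h4 : E' ≤ l * (A + B))
    (h : Real.sinh A * Real.sinh B * Real.cosh (l * A - l * B)
      + Real.sinh (l * A) * Real.sinh (l * B) * (Real.cosh E - Real.cosh (A - B))
      ≤ Real.sinh A * Real.sinh B * Real.cosh E') : l / 2 * E ≤ E' := by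
  have hE : 0 ≤ E := (abs_nonneg _).trans h1
  have sA : 0 < Real.sinh A := Real.sinh_pos_iff.2 hA
  have sB : 0 < Real.sinh B := Real.sinh_pos_iff.2 hB
  have a1 := sinh_low l A hl.le hA.le hA1
  have b1 := sinh_low l B hl.le hB.le hB1
  have c1 : Real.cosh (A - B) ≤ Real.cosh E := by
    rw [← Real.cosh_abs (A - B), ← Real.cosh_abs E]
    apply Real.cosh_le_cosh.2
    rw [abs_abs, abs_abs, abs_of_nonneg hE]
    exact h1
  have lA : 0 < l * Real.sinh A := mul_pos hl sA
  have lB : 0 < l * Real.sinh B := mul_pos hl sB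
  have d1 : (l * Real.sinh A) * (l * Real.sinh B) ≤
      (123 / 100 * Real.sinh (l * A)) * (123 / 100 * Real.sinh (l * B)) :=
    mul_le_mul a1 b1 lB.le (lA.le.trans a1)
  have d2 : (100 / 123) ^ 2 * l ^ 2 * (Real.sinh A * Real.sinh B) ≤
      Real.sinh (l * A) * Real.sinh (l * B) := by
    nlinarith
  have d3 : (100 / 123) ^ 2 * l ^ 2 * (Real.sinh A * Real.sinh B) *
      (Real.cosh E - Real.cosh (A - B)) ≤
      Real.sinh (l * A) * Real.sinh (l * B) * (Real.cosh E - Real.cosh (A - B)) :=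
    mul_le_mul_of_nonneg_right d2 (by linarith)
  have sAB : 0 < Real.sinh A * Real.sinh B := mul_pos sA sB
  have d4 : Real.cosh (l * A - l * B) + (100 / 123) ^ 2 * l ^ 2 *
      (Real.cosh E - Real.cosh (A - B)) ≤ Real.cosh E' := by
    have : Real.sinh A * Real.sinh B * (Real.cosh (l * A - l * B) + (100 / 123) ^ 2 * l ^ 2 *
      (Real.cosh E - Real.cosh (A - B))) ≤ Real.sinh A * Real.sinh B * Real.cosh E' := by
      nlinarith
    exact le_of_mul_le_mul_left this sAB
  -- the difference of the radii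
  obtain ⟨t, ht⟩ : ∃ t : ℝ, t = |A - B| / 2 := ⟨_, rfl⟩
  have ht0 : 0 ≤ t := by rw [ht]; positivity
  have ht1 : t ≤ 11 / 10 := by
    rw [ht]
    have : |A - B| ≤ 11 / 10 := abs_le.2 ⟨by linarith, by linarith⟩
    linarith
  have e1 : Real.cosh (A - B) = 1 + 2 * Real.sinh t ^ 2 := by
    rw [← Real.cosh_abs, cosh_half, ht]
  have e2 : Real.cosh (l * A - l * B) = 1 + 2 * Real.sinh (l * t) ^ 2 := by
    rw [← Real.cosh_abs, cosh_half, ht, ← mul_sub, abs_mul, abs_of_pos hl]
    congr 4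
    ring
  have e3 := sinh_low l t hl.le ht0 ht1
  have e4 : 0 ≤ Real.sinh t := Real.sinh_nonneg_iff.2 ht0
  have e5 : (l * Real.sinh t) ^ 2 ≤ (123 / 100 * Real.sinh (l * t)) ^ 2 :=
    pow_le_pow_left₀ (by positivity) e3 2
  rw [e1, e2, cosh_half E, cosh_half E'] at d4
  have f1 : (100 / 123) ^ 2 * l ^ 2 * Real.sinh (E / 2) ^ 2 ≤ Real.sinh (E' / 2) ^ 2 := by
    nlinarith
  have g1 : 0 ≤ Real.sinh (E / 2) := Real.sinh_nonneg_iff.2 (by positivity)
  have g2 : 0 ≤ Real.sinh (E' / 2) := Real.sinh_nonneg_iff.2 (by positivity)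
  have f2 : 100 / 123 * l * Real.sinh (E / 2) ≤ Real.sinh (E' / 2) := by
    apply le_of_sq_le_sq _ g2
    calc (100 / 123 * l * Real.sinh (E / 2)) ^ 2
        = (100 / 123) ^ 2 * l ^ 2 * Real.sinh (E / 2) ^ 2 := by ring
      _ ≤ _ := f1
  have f3 : E / 2 ≤ Real.sinh (E / 2) := Real.self_le_sinh_iff.2 (by positivity)
  have f4 : Real.sinh (E' / 2) ≤ 123 / 100 * (E' / 2) := by
    apply sinh_up _ (by positivity)
    have : l * (A + B) ≤ 1 * (A + B) := mul_le_mul_of_nonneg_right hl1 (by positivity)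
    linarith
  have f5 : 100 / 123 * l * (E / 2) ≤ 100 / 123 * l * Real.sinh (E / 2) :=
    mul_le_mul_of_nonneg_left f3 (by positivity)
  have f6 : 0 ≤ l * E := by positivity
  nlinarith

theorem goalEX : Pool.Agent.Helper50.CT.StmtEX := by
  intro κ a b D0 D' l hκ ha hb ha1 hb1 hl hl1 h1 h2 h3 h4 h
  have e1 : κ * (a - l * a) = κ * a - l * (κ * a) := by ring
  have e2 : κ * (l * b) = l * (κ * b) := by ring
  have e3 : κ * (l * a) = l * (κ * a) := by ring
  have e4 : κ * (b - l * b) = κ * b - l * (κ * b) := by ring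
  rw [e1, e2, e3, e4, ident] at h
  have h5 := core (κ * a) (κ * b) (κ * D0) (κ * D') l (by positivity) (by positivity) ha1 hb1
    hl hl1 (by
      rw [← mul_sub, abs_mul, abs_of_pos hκ]
      exact mul_le_mul_of_nonneg_left h1 hκ.le) (by positivity) (by nlinarith) h
  have h6 : κ * (l / 2 * D0) ≤ κ * D' := by linarith
  exact le_of_mul_le_mul_left h6 hκ

end Pool.Agent.Helper85.CT
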